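import Pool.Agent.H96.HK.Basic

/-!
# MP_e94f6f_an: module ENER, energy upper bound near a geodesic
-/

open MeasureTheory Set Filter Topology
open scoped ContDiff

namespace Pool.Agent.H86.HK

open Pool.Agent.H96.HK

theorem mono_ofE {a : ℝ} {f f' : ℝ → ℝ} (hf : ∀ x, HasDerivAt f (f' x) x)
    (h0 : ∀ x, a ≤ x → 0 ≤ f' x) {s : ℝ} (hs : a ≤ s) : f a ≤ f s := by
  have hd : Differentiable ℝ f := fun x => (hf x).differentiableAt
  have hm : MonotoneOn f (Ici a) := by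
    apply monotoneOn_of_deriv_nonneg (convex_Ici a) hd.continuous.continuousOn hd.differentiableOn
    intro x hx
    rw [interior_Ici] at hx
    rw [(hf x).deriv]
    exact h0 x hx.le
  exact hm (mem_Ici.2 le_rfl) (mem_Ici.2 hs) hs

/-- quadratic upper bound for `F²` -/
theorem F_sq_le {F : ℝ → ℝ} {K : ℝ} (hF : Prof F) (hK : FB F K) (s u : ℝ) :
    F (s + u) ^ 2 ≤ F s ^ 2 + 2 * F s * deriv F s * u + (1 + K) * u ^ 2 := by
  have hFd : ∀ x, HasDerivAt F (deriv F x) x := fun x =>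
    ((hF.smooth.differentiable (by simp)) x).hasDerivAt
  have hFdd : ∀ x, HasDerivAt (deriv F) (deriv (deriv F) x) x := fun x =>
    ((hK.sm1.differentiable (by simp)) x).hasDerivAt
  have hlin : ∀ θ : ℝ, HasDerivAt (fun θ => s + u * θ) u θ := fun θ => by
    have := ((hasDerivAt_id θ).const_mul u).const_add s
    simpa using this
  have hb : ∀ x, deriv F x ^ 2 + F x * deriv (deriv F) x ≤ 1 + K := by
    intro x
    have h1 : deriv F x ^ 2 ≤ 1 := by
      have := hK.d1 x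
      rw [← sq_abs]; exact pow_le_one₀ (abs_nonneg _) this
    have h2 : F x * deriv (deriv F) x ≤ K := by
      rcases le_total 1 |x| with h | h
      · rw [hK.far2 x h, mul_zero]; linarith [hK.K1]
      · have h3 := hK.one x h
        have h4 := hK.d2 x
        have h5 := hF.convex x
        have h6 := (hF.pos x).le
        calc F x * deriv (deriv F) x ≤ 1 * deriv (deriv F) x := mul_le_mul_of_nonneg_right h3 h5
          _ ≤ K := by linarith
    linarith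
  -- first derivative
  set k : ℝ → ℝ := fun θ => F s ^ 2 + 2 * F s * deriv F s * u * θ + (1 + K) * u ^ 2 * θ ^ 2 -
    F (s + u * θ) ^ 2 with hk
  set k1 : ℝ → ℝ := fun θ => 2 * F s * deriv F s * u + 2 * (1 + K) * u ^ 2 * θ -
    2 * F (s + u * θ) * deriv F (s + u * θ) * u with hk1
  set k2 : ℝ → ℝ := fun θ => 2 * (1 + K) * u ^ 2 -
    2 * (deriv F (s + u * θ) ^ 2 + F (s + u * θ) * deriv (deriv F) (s + u * θ)) * u ^ 2 with hk2
  have hkd : ∀ θ, HasDerivAt k (k1 θ) θ := by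
    intro θ
    have h1 := (hFd (s + u * θ)).comp θ (hlin θ)
    have h2 := h1.pow 2
    have h3 := (((hasDerivAt_id θ).const_mul (2 * F s * deriv F s * u)).const_add (F s ^ 2)).add
      ((hasDerivAt_pow 2 θ).const_mul ((1 + K) * u ^ 2))
    have h4 := h3.sub h2
    have h5 : 2 * F s * deriv F s * u * 1 + (1 + K) * u ^ 2 * (((2 : ℕ) : ℝ) * θ ^ (2 - 1)) -
        ((2 : ℕ) : ℝ) * (F ∘ fun θ => s + u * θ) θ ^ (2 - 1) * (deriv F (s + u * θ) * u) = k1 θ := by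
      simp only [hk1, Function.comp]; norm_num; ring
    rw [h5] at h4
    exact h4
  have hk1d : ∀ θ, HasDerivAt k1 (k2 θ) θ := by
    intro θ
    have h1 := (hFd (s + u * θ)).comp θ (hlin θ)
    have h1' := (hFdd (s + u * θ)).comp θ (hlin θ)
    have h2 := ((h1.const_mul 2).mul h1').mul_const u
    have h3 := ((hasDerivAt_id θ).const_mul (2 * (1 + K) * u ^ 2)).const_add (2 * F s * deriv F s * u)
    have h4 := h3.sub h2
    have h5 : 2 * (1 + K) * u ^ 2 * 1 - (2 * (deriv F (s + u * θ) * u) *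
        (deriv F ∘ fun θ => s + u * θ) θ + 2 * (F ∘ fun θ => s + u * θ) θ *
        (deriv (deriv F) (s + u * θ) * u)) * u = k2 θ := by
      simp only [hk2, Function.comp]; ring
    rw [h5] at h4
    exact h4
  have hk10 : k1 0 = 0 := by simp only [hk1, mul_zero, add_zero]; ring
  have hk0 : k 0 = 0 := by simp only [hk, mul_zero, add_zero]; ring
  have hk2n : ∀ θ, 0 ≤ k2 θ := by
    intro θ
    simp only [hk2]
    have := mul_le_mul_of_nonneg_right (hb (s + u * θ)) (sq_nonneg u)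
    linarith
  have hk1n : ∀ θ, 0 ≤ θ → 0 ≤ k1 θ := by
    intro θ hθ
    have := mono_ofE (a := 0) hk1d (fun x _ => hk2n x) hθ
    rwa [hk10] at this
  have hfin := mono_ofE (a := 0) hkd hk1n zero_le_one
  rw [hk0] at hfin
  simp only [hk, mul_one, one_pow] at hfin
  linarith

theorem cs_int {f : ℝ → ℝ} (hf : Continuous f) :
    (∫ t in (0 : ℝ)..1, f t) ^ 2 ≤ ∫ t in (0 : ℝ)..1, f t ^ 2 := by
  set m := ∫ t in (0 : ℝ)..1, f t with hm
  have h1 : 0 ≤ ∫ t in (0 : ℝ)..1, (f t - m) ^ 2 :=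
    intervalIntegral.integral_nonneg zero_le_one fun t _ => sq_nonneg _
  have h2 : ∫ t in (0 : ℝ)..1, (f t - m) ^ 2 = (∫ t in (0 : ℝ)..1, f t ^ 2) - 2 * m * m + m ^ 2 := by
    have e : ∀ t, (f t - m) ^ 2 = (f t ^ 2 - 2 * m * f t) + m ^ 2 := fun t => by ring
    simp only [e]
    rw [intervalIntegral.integral_add, intervalIntegral.integral_sub,
      intervalIntegral.integral_const_mul, intervalIntegral.integral_const]
    · simp only [sub_zero, smul_eq_mul, one_mul]; rw [← hm]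
    · exact (hf.pow 2).intervalIntegrable _ _
    · exact (continuous_const.mul hf).intervalIntegrable _ _
    · exact ((hf.pow 2).sub (continuous_const.mul hf)).intervalIntegrable _ _
    · exact continuous_const.intervalIntegrable _ _
  rw [h2] at h1
  linarith [sq m]

theorem spd_cont {F : ℝ → ℝ} (hF : Prof F) {c : ℝ → X} (hc : ContDiff ℝ 1 c) : Continuous (spd F c) := by
  have hc1 : ContDiff ℝ 1 fun t => (c t).1 := hc.fst
  have hc2 : ContDiff ℝ 1 fun t => (c t).2 := hc.snd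
  have h1 : Continuous (deriv fun t => (c t).1) := hc1.continuous_deriv le_rfl
  have h2 : Continuous (deriv fun t => (c t).2) := hc2.continuous_deriv le_rfl
  have h3 : Continuous fun t => F (c t).1 := hF.continuous.comp hc1.continuous
  have h4 : spd F c = fun t => √(deriv (fun τ => (c τ).1) t ^ 2 + F (c t).1 ^ 2 * deriv (fun τ => (c τ).2) t ^ 2) := rfl
  rw [h4]
  exact ((h1.pow 2).add ((h3.pow 2).mul (h2.pow 2))).sqrt

theorem len_nonneg (F : ℝ → ℝ) (c : ℝ → X) : 0 ≤ len F c :=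
  intervalIntegral.integral_nonneg zero_le_one fun t _ => Real.sqrt_nonneg _

theorem dd_le_len {F : ℝ → ℝ} {c : ℝ → X} {p q : X} (hc : IsPath c p q) : dd F p q ≤ len F c := by
  unfold dd
  apply csInf_le
  · refine ⟨0, ?_⟩
    rintro L ⟨c', -, rfl⟩
    exact len_nonneg F c'
  · exact ⟨c, hc, rfl⟩

theorem dd_nn (F : ℝ → ℝ) (p q : X) : 0 ≤ dd F p q := by
  unfold dd
  apply Real.sInf_nonneg
  rintro L ⟨c', -, rfl⟩
  exact len_nonneg F c'

/-- the bound of the rest -/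
theorem rest_bound {S' A B u w u' w' Fs F's K r R F0 M N : ℝ} (hN : 0 ≤ N) (hu2 : u ^ 2 ≤ N)
    (hw'2 : w' ^ 2 ≤ 2 * N) (hu'2 : u' ^ 2 ≤ 2 * N) (hu1 : |u| ≤ 1) (hw'1 : |w'| ≤ 2)
    (hFs0 : 0 ≤ Fs) (hFsM : Fs ≤ M) (hF's : |F's| ≤ 1) (hB : |B| ≤ F0) (hF0 : 0 ≤ F0) (hr : 0 ≤ r)
    (hrR : r ≤ R) (hK : 0 ≤ K) (hS : S' = 0) (hA : A = 0) :
    u' ^ 2 + Fs ^ 2 * w' ^ 2 + 2 * Fs * F's * u * (2 * r * B * w' + w' ^ 2) +
      (1 + K) * u ^ 2 * (r * B + w') ^ 2 ≤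
      (2 + 2 * M ^ 2 + 2 * M * (3 * R * F0 + 2) + (1 + K) * (R * F0 + 2) ^ 2) * N := by
  have hM : 0 ≤ M := hFs0.trans hFsM
  have hR : 0 ≤ R := hr.trans hrR
  have t1 : Fs ^ 2 * w' ^ 2 ≤ M ^ 2 * (2 * N) :=
    mul_le_mul (pow_le_pow_left₀ hFs0 hFsM 2) hw'2 (sq_nonneg _) (sq_nonneg _)
  have huw : |u * w'| ≤ 3 / 2 * N := by
    rw [abs_le]
    constructor <;> nlinarith [sq_nonneg (u - w'), sq_nonneg (u + w')]
  have hrB : |r * B| ≤ R * F0 := by
    rw [abs_mul, abs_of_nonneg hr]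
    exact mul_le_mul hrR hB (abs_nonneg _) hR
  have t2 : 2 * Fs * F's * u * (2 * r * B * w' + w' ^ 2) ≤ 2 * M * (3 * R * F0 + 2) * N := by
    have e : 2 * Fs * F's * u * (2 * r * B * w' + w' ^ 2) =
      (2 * Fs * F's) * (2 * (r * B) * (u * w') + u * w' ^ 2) := by ring
    rw [e]
    have h1 : |2 * Fs * F's| ≤ 2 * M := by
      rw [abs_mul, abs_mul, abs_of_nonneg hFs0, abs_of_nonneg (by norm_num : (0 : ℝ) ≤ 2)]
      nlinarith [abs_nonneg F's]
    have h2 : |2 * (r * B) * (u * w') + u * w' ^ 2| ≤ (3 * R * F0 + 2) * N := by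
      have h3 : |2 * (r * B) * (u * w')| ≤ 3 * R * F0 * N := by
        rw [abs_mul, abs_mul, abs_of_nonneg (by norm_num : (0 : ℝ) ≤ 2)]
        have : |r * B| * |u * w'| ≤ (R * F0) * (3 / 2 * N) :=
          mul_le_mul hrB huw (abs_nonneg _) (by positivity)
        nlinarith
      have h4 : |u * w' ^ 2| ≤ 2 * N := by
        rw [abs_mul, abs_of_nonneg (sq_nonneg w')]
        calc |u| * w' ^ 2 ≤ 1 * w' ^ 2 := mul_le_mul_of_nonneg_right hu1 (sq_nonneg _)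
          _ ≤ 2 * N := by linarith
      calc |2 * (r * B) * (u * w') + u * w' ^ 2| ≤ |2 * (r * B) * (u * w')| + |u * w' ^ 2| := abs_add_le _ _
        _ ≤ (3 * R * F0 + 2) * N := by linarith
    calc (2 * Fs * F's) * (2 * (r * B) * (u * w') + u * w' ^ 2)
        ≤ |(2 * Fs * F's) * (2 * (r * B) * (u * w') + u * w' ^ 2)| := le_abs_self _
      _ = |2 * Fs * F's| * |2 * (r * B) * (u * w') + u * w' ^ 2| := abs_mul _ _
      _ ≤ (2 * M) * ((3 * R * F0 + 2) * N) := mul_le_mul h1 h2 (abs_nonneg _) (by positivity)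
      _ = 2 * M * (3 * R * F0 + 2) * N := by ring
  have t3 : (1 + K) * u ^ 2 * (r * B + w') ^ 2 ≤ (1 + K) * (R * F0 + 2) ^ 2 * N := by
    have h1 : |r * B + w'| ≤ R * F0 + 2 := (abs_add_le _ _).trans (by linarith)
    have h2 : (r * B + w') ^ 2 ≤ (R * F0 + 2) ^ 2 := by
      rw [← sq_abs (r * B + w')]; exact pow_le_pow_left₀ (abs_nonneg _) h1 2
    have h3 : u ^ 2 * (r * B + w') ^ 2 ≤ N * (R * F0 + 2) ^ 2 :=
      mul_le_mul hu2 h2 (sq_nonneg _) hN
    have h4 : 0 ≤ 1 + K := by linarith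
    nlinarith
  nlinarith

theorem enerT (hFB : T_FB) : T_ENER := by
  intro F hF R hR
  obtain ⟨K, hK⟩ := hFB F hF
  have hF0 : 0 < F 0 := hF.pos 0
  have hK1 := hK.K1
  set M : ℝ := 1 + 2 * R with hM
  refine ⟨2 + 2 * M ^ 2 + 2 * M * (3 * R * (F 0)⁻¹ + 2) + (1 + K) * (R * (F 0)⁻¹ + 2) ^ 2,
    by positivity, ?_⟩
  intro c a b hg r0 r hc0 hr hrR δ0 δ1 h01 h02 h11 h12
  obtain ⟨g1, g2, g3, g4, g5⟩ := hg
  set C : ℝ := 2 + 2 * M ^ 2 + 2 * M * (3 * R * (F 0)⁻¹ + 2) + (1 + K) * (R * (F 0)⁻¹ + 2) ^ 2 with hC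
  set N : ℝ := δ0.1 ^ 2 + δ0.2 ^ 2 + δ1.1 ^ 2 + δ1.2 ^ 2 with hN
  have hN0 : 0 ≤ N := by positivity
  have hFd : ∀ x, HasDerivAt F (deriv F x) x := fun x =>
    ((hF.smooth.differentiable (by simp)) x).hasDerivAt
  have hlin : ∀ τ : ℝ, HasDerivAt (fun τ => r0 + r * τ) r τ := fun τ => by
    have := ((hasDerivAt_id τ).const_mul r).const_add r0
    simpa using this
  -- the curve
  have hcC : ContDiff ℝ 1 c := by
    have h1 : ContDiff ℝ 1 fun ρ => (c ρ).1 := by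
      rw [contDiff_one_iff_deriv]
      refine ⟨fun ρ => (g1 ρ).differentiableAt, ?_⟩
      have : deriv (fun ρ => (c ρ).1) = a := funext fun ρ => (g1 ρ).deriv
      rw [this]
      exact continuous_iff_continuousAt.2 fun ρ => (g3 ρ).continuousAt
    have h2 : ContDiff ℝ 1 fun ρ => (c ρ).2 := by
      rw [contDiff_one_iff_deriv]
      refine ⟨fun ρ => (g2 ρ).differentiableAt, ?_⟩
      have : deriv (fun ρ => (c ρ).2) = b := funext fun ρ => (g2 ρ).deriv
      rw [this]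
      exact continuous_iff_continuousAt.2 fun ρ => (g4 ρ).continuousAt
    exact h1.prodMk h2
  set γ : ℝ → X := fun τ => c (r0 + r * τ) + ((1 - τ) • δ0 + τ • δ1) with hγ
  have hγC : ContDiff ℝ 1 γ := by
    apply ContDiff.add
    · exact hcC.comp (contDiff_const.add (contDiff_const.mul contDiff_id))
    · exact ((contDiff_const.sub contDiff_id).smul contDiff_const).add (contDiff_id.smul contDiff_const)
  have hpath : IsPath γ (c r0 + δ0) (c (r0 + r) + δ1) := by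
    refine ⟨hγC, ?_, ?_⟩
    · simp [hγ]
    · simp [hγ]
  have hγ1 : ∀ τ, HasDerivAt (fun τ => (γ τ).1) (r * a (r0 + r * τ) + (δ1.1 - δ0.1)) τ := by
    intro τ
    have h1 := (g1 (r0 + r * τ)).comp τ (hlin τ)
    have h2 := (((hasDerivAt_id τ).const_sub 1).mul_const δ0.1).add ((hasDerivAt_id τ).mul_const δ1.1)
    have h3 := h1.add h2
    have h4 : a (r0 + r * τ) * r + (-1 * δ0.1 + 1 * δ1.1) = r * a (r0 + r * τ) + (δ1.1 - δ0.1) := by ring
    rw [h4] at h3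
    exact h3
  have hγ2 : ∀ τ, HasDerivAt (fun τ => (γ τ).2) (r * b (r0 + r * τ) + (δ1.2 - δ0.2)) τ := by
    intro τ
    have h1 := (g2 (r0 + r * τ)).comp τ (hlin τ)
    have h2 := (((hasDerivAt_id τ).const_sub 1).mul_const δ0.2).add ((hasDerivAt_id τ).mul_const δ1.2)
    have h3 := h1.add h2
    have h4 : b (r0 + r * τ) * r + (-1 * δ0.2 + 1 * δ1.2) = r * b (r0 + r * τ) + (δ1.2 - δ0.2) := by ring
    rw [h4] at h3
    exact h3
  have hspd := spd_cont hF hγC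
  have hspd2 : ∀ τ, spd F γ τ ^ 2 = (r * a (r0 + r * τ) + (δ1.1 - δ0.1)) ^ 2 +
      F (γ τ).1 ^ 2 * (r * b (r0 + r * τ) + (δ1.2 - δ0.2)) ^ 2 := by
    intro τ
    unfold spd
    rw [Real.sq_sqrt (by positivity), (hγ1 τ).deriv, (hγ2 τ).deriv]
  -- the first order part
  set Φ : ℝ → ℝ := fun τ => a (r0 + r * τ) * ((1 - τ) * δ0.1 + τ * δ1.1) +
    F (c (r0 + r * τ)).1 ^ 2 * b (r0 + r * τ) * ((1 - τ) * δ0.2 + τ * δ1.2) with hΦ
  have hcons : ∀ ρ, HasDerivAt (fun ρ => F (c ρ).1 ^ 2 * b ρ) 0 ρ := by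
    intro ρ
    have h1 := (((hFd (c ρ).1).comp ρ (g1 ρ)).pow 2).mul (g4 ρ)
    have h2 : ((2 : ℕ) : ℝ) * (F ∘ fun r => (c r).1) ρ ^ (2 - 1) * (deriv F (c ρ).1 * a ρ) * b ρ +
        (F ∘ fun r => (c r).1) ρ ^ 2 * -(2 * (deriv F (c ρ).1 / F (c ρ).1) * a ρ * b ρ) = 0 := by
      have := (hF.pos (c ρ).1).ne'
      simp only [Function.comp]
      norm_num
      field_simp
      ring
    have h3 : HasDerivAt (fun ρ => F (c ρ).1 ^ 2 * b ρ)
      (((2 : ℕ) : ℝ) * (F ∘ fun r => (c r).1) ρ ^ (2 - 1) * (deriv F (c ρ).1 * a ρ) * b ρ +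
        (F ∘ fun r => (c r).1) ρ ^ 2 * -(2 * (deriv F (c ρ).1 / F (c ρ).1) * a ρ * b ρ)) ρ := h1
    rw [h2] at h3
    exact h3
  have hu : ∀ (x y τ : ℝ), HasDerivAt (fun τ => (1 - τ) * x + τ * y) (y - x) τ := by
    intro x y τ
    have h2 := (((hasDerivAt_id τ).const_sub 1).mul_const x).add ((hasDerivAt_id τ).mul_const y)
    have h4 : -1 * x + 1 * y = y - x := by ring
    rw [h4] at h2
    exact h2
  set Φ' : ℝ → ℝ := fun τ => (F (c (r0 + r * τ)).1 * deriv F (c (r0 + r * τ)).1 *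
      b (r0 + r * τ) ^ 2 * r) * ((1 - τ) * δ0.1 + τ * δ1.1) + a (r0 + r * τ) * (δ1.1 - δ0.1) +
    F (c (r0 + r * τ)).1 ^ 2 * b (r0 + r * τ) * (δ1.2 - δ0.2) with hΦ'
  have hΦd : ∀ τ, HasDerivAt Φ (Φ' τ) τ := by
    intro τ
    have h1 := (((g3 (r0 + r * τ)).comp τ (hlin τ)).mul (hu δ0.1 δ1.1 τ)).add
      (((hcons (r0 + r * τ)).comp τ (hlin τ)).mul (hu δ0.2 δ1.2 τ))
    have h3 : HasDerivAt Φ (F (c (r0 + r * τ)).1 * deriv F (c (r0 + r * τ)).1 *
      b (r0 + r * τ) ^ 2 * r * ((1 - τ) * δ0.1 + τ * δ1.1) + a (r0 + r * τ) * (δ1.1 - δ0.1) +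
      (0 * r * ((1 - τ) * δ0.2 + τ * δ1.2) + F (c (r0 + r * τ)).1 ^ 2 * b (r0 + r * τ) *
      (δ1.2 - δ0.2))) τ := h1
    have h4 : F (c (r0 + r * τ)).1 * deriv F (c (r0 + r * τ)).1 *
      b (r0 + r * τ) ^ 2 * r * ((1 - τ) * δ0.1 + τ * δ1.1) + a (r0 + r * τ) * (δ1.1 - δ0.1) +
      (0 * r * ((1 - τ) * δ0.2 + τ * δ1.2) + F (c (r0 + r * τ)).1 ^ 2 * b (r0 + r * τ) *
      (δ1.2 - δ0.2)) = Φ' τ := by simp only [hΦ']; ring
    rw [h4] at h3
    exact h3
  -- bounds along the curve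
  have ha1 : ∀ ρ, |a ρ| ≤ 1 := by
    intro ρ
    rw [← sq_le_one_iff_abs_le_one]
    nlinarith [g5 ρ, sq_nonneg (F (c ρ).1 * b ρ)]
  have hb1 : ∀ ρ, |b ρ| ≤ (F 0)⁻¹ := by
    intro ρ
    have h1 : (F (c ρ).1 * b ρ) ^ 2 ≤ 1 := by nlinarith [g5 ρ, sq_nonneg (a ρ)]
    have h2 : |F (c ρ).1 * b ρ| ≤ 1 := (sq_le_one_iff_abs_le_one _).1 h1
    rw [abs_mul, abs_of_pos (hF.pos _)] at h2
    have h3 := hK.m0 (c ρ).1
    have h4 : F 0 * |b ρ| ≤ 1 := (mul_le_mul_of_nonneg_right h3 (abs_nonneg _)).trans h2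
    rw [← one_div, le_div_iff₀ hF0]
    linarith
  have hS : ∀ τ ∈ Icc (0 : ℝ) 1, |(c (r0 + r * τ)).1| ≤ 2 * R := by
    intro τ hτ
    have h1 : ∀ ρ, r0 ≤ ρ → |(c ρ).1 - (c r0).1| ≤ ρ - r0 := by
      intro ρ hρ
      have k1 := mono_ofE (a := r0) (f := fun x => x - (c x).1) (f' := fun x => 1 - a x)
        (fun x => (hasDerivAt_id x).sub (g1 x)) (fun x _ => by
          have := ha1 x; have := le_abs_self (a x); linarith) hρ
      have k2 := mono_ofE (a := r0) (f := fun x => x + (c x).1) (f' := fun x => 1 + a x)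
        (fun x => (hasDerivAt_id x).add (g1 x)) (fun x _ => by
          have := ha1 x; have := neg_abs_le (a x); linarith) hρ
      rw [abs_le]
      constructor <;> linarith
    have h2 : r * τ ≤ R := by
      calc r * τ ≤ r * 1 := mul_le_mul_of_nonneg_left hτ.2 hr
        _ ≤ R := by linarith
    have h3 := h1 (r0 + r * τ) (by have := mul_nonneg hr hτ.1; linarith)
    have h4 := abs_sub_abs_le_abs_sub (c (r0 + r * τ)).1 (c r0).1
    linarith
  -- pointwise bound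
  have hpt : ∀ τ ∈ Icc (0 : ℝ) 1, spd F γ τ ^ 2 ≤ r ^ 2 + 2 * r * Φ' τ + C * N := by
    intro τ hτ
    rw [hspd2 τ]
    set S := (c (r0 + r * τ)).1 with hSdef
    set A := a (r0 + r * τ) with hAdef
    set B := b (r0 + r * τ) with hBdef
    set u := (1 - τ) * δ0.1 + τ * δ1.1 with hudef
    set w' := δ1.2 - δ0.2 with hw'def
    set u' := δ1.1 - δ0.1 with hu'def
    have hγτ : (γ τ).1 = S + u := by simp [hγ, hSdef, hudef]
    have hquad := F_sq_le hF hK S u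
    have hunit := g5 (r0 + r * τ)
    rw [← hSdef, ← hAdef, ← hBdef] at hunit
    have hτ0 := hτ.1
    have hτ1 := hτ.2
    have hu2 : u ^ 2 ≤ N := by
      have h1 : u ^ 2 ≤ (1 - τ) * δ0.1 ^ 2 + τ * δ1.1 ^ 2 := by
        have : (1 - τ) * δ0.1 ^ 2 + τ * δ1.1 ^ 2 - u ^ 2 = τ * (1 - τ) * (δ0.1 - δ1.1) ^ 2 := by
          rw [hudef]; ring
        have h2 : 0 ≤ τ * (1 - τ) * (δ0.1 - δ1.1) ^ 2 :=
          mul_nonneg (mul_nonneg hτ0 (by linarith)) (sq_nonneg _)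
        linarith
      have h2 : (1 - τ) * δ0.1 ^ 2 ≤ δ0.1 ^ 2 := by nlinarith [sq_nonneg δ0.1]
      have h3 : τ * δ1.1 ^ 2 ≤ δ1.1 ^ 2 := by nlinarith [sq_nonneg δ1.1]
      rw [hN]
      nlinarith [sq_nonneg δ0.2, sq_nonneg δ1.2]
    have hw'2 : w' ^ 2 ≤ 2 * N := by
      rw [hw'def, hN]
      nlinarith [sq_nonneg (δ1.2 + δ0.2), sq_nonneg δ0.1, sq_nonneg δ1.1]
    have hu'2 : u' ^ 2 ≤ 2 * N := by
      rw [hu'def, hN]
      nlinarith [sq_nonneg (δ1.1 + δ0.1), sq_nonneg δ0.2, sq_nonneg δ1.2]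
    have hu1 : |u| ≤ 1 := by
      rw [hudef]
      calc |(1 - τ) * δ0.1 + τ * δ1.1| ≤ |(1 - τ) * δ0.1| + |τ * δ1.1| := abs_add_le _ _
        _ = (1 - τ) * |δ0.1| + τ * |δ1.1| := by
            rw [abs_mul, abs_mul, abs_of_nonneg hτ0, abs_of_nonneg (by linarith : (0 : ℝ) ≤ 1 - τ)]
        _ ≤ (1 - τ) * 1 + τ * 1 := add_le_add
            (mul_le_mul_of_nonneg_left h01 (by linarith)) (mul_le_mul_of_nonneg_left h11 hτ0)
        _ = 1 := by ring
    have hw'1 : |w'| ≤ 2 := by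
      rw [hw'def]
      have := abs_sub δ1.2 δ0.2
      linarith
    have hFM : F S ≤ M := by
      have h1 := hK.up S
      have h2 := hS τ hτ
      rw [hM]; linarith
    have hrest := rest_bound (S' := 0) (A := 0) (B := B) (u := u) (w := 0) (u' := u') (w' := w')
      (Fs := F S) (F's := deriv F S) (K := K) (r := r) (R := R) (F0 := (F 0)⁻¹) (M := M) (N := N)
      hN0 hu2 hw'2 hu'2 hu1 hw'1 (hF.pos S).le hFM (hK.d1 S) (hb1 _) (by positivity) hr hrR
      (by linarith) rfl rfl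
    rw [← hC] at hrest
    rw [hγτ]
    have hmul := mul_le_mul_of_nonneg_right hquad (sq_nonneg (r * B + w'))
    have hΦτ : Φ' τ = (F S * deriv F S * B ^ 2 * r) * u + A * u' + F S ^ 2 * B * w' := rfl
    rw [hΦτ]
    have hident : (r * A + u') ^ 2 + (F S ^ 2 + 2 * F S * deriv F S * u + (1 + K) * u ^ 2) *
        (r * B + w') ^ 2 = r ^ 2 * (A ^ 2 + F S ^ 2 * B ^ 2) +
        2 * r * ((F S * deriv F S * B ^ 2 * r) * u + A * u' + F S ^ 2 * B * w') +
        (u' ^ 2 + F S ^ 2 * w' ^ 2 + 2 * F S * deriv F S * u * (2 * r * B * w' + w' ^ 2) +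
      (1 + K) * u ^ 2 * (r * B + w') ^ 2) := by ring
    rw [hunit, mul_one] at hident
    linarith
  -- integration
  have hlen2 : len F γ ^ 2 ≤ ∫ t in (0 : ℝ)..1, spd F γ t ^ 2 := cs_int hspd
  set H : ℝ → ℝ := fun x => ∫ t in (0 : ℝ)..x, spd F γ t ^ 2 with hH
  have hHd : ∀ x, HasDerivAt H (spd F γ x ^ 2) x := fun x =>
    intervalIntegral.integral_hasDerivAt_right ((hspd.pow 2).intervalIntegrable _ _)
      ((hspd.pow 2).stronglyMeasurableAtFilter _ _) (hspd.pow 2).continuousAt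
  have hmono : MonotoneOn (fun x => r ^ 2 * x + 2 * r * Φ x + C * N * x - H x) (Icc 0 1) := by
    have hd : ∀ x, HasDerivAt (fun x => r ^ 2 * x + 2 * r * Φ x + C * N * x - H x)
        (r ^ 2 * 1 + 2 * r * Φ' x + C * N * 1 - spd F γ x ^ 2) x := fun x =>
      ((((hasDerivAt_id x).const_mul (r ^ 2)).add ((hΦd x).const_mul (2 * r))).add
        ((hasDerivAt_id x).const_mul (C * N))).sub (hHd x)
    have hdiff : Differentiable ℝ (fun x => r ^ 2 * x + 2 * r * Φ x + C * N * x - H x) := fun x =>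
      (hd x).differentiableAt
    apply monotoneOn_of_deriv_nonneg (convex_Icc 0 1) hdiff.continuous.continuousOn
      hdiff.differentiableOn
    intro x hx
    rw [(hd x).deriv]
    have := hpt x (interior_subset hx)
    linarith
  have hfin := hmono (left_mem_Icc.2 zero_le_one) (right_mem_Icc.2 zero_le_one) zero_le_one
  have hH0 : H 0 = 0 := by simp [hH]
  have hΦ0 : Φ 0 = ip F c a b r0 δ0 := by simp [hΦ, ip]
  have hΦ1 : Φ 1 = ip F c a b (r0 + r) δ1 := by simp [hΦ, ip]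
  simp only [mul_zero, mul_one, hH0, hΦ0, hΦ1] at hfin
  have hdd : dd F (c r0 + δ0) (c (r0 + r) + δ1) ^ 2 ≤ len F γ ^ 2 :=
    pow_le_pow_left₀ (dd_nn F _ _) (dd_le_len hpath) 2
  have hH1 : len F γ ^ 2 ≤ H 1 := hlen2
  linarith

end Pool.Agent.H86.HK
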