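import Pool.Agent.H96.HK.TargetsN
import Pool.Agent.H96.HK.Basic

/-!
# MP_e94f6f_an: module GAM, powers of the generator
-/

open MeasureTheory Set Filter Topology
open scoped ContDiff

namespace Pool.Agent.H86.HK

open Pool.Agent.H96.HK

theorem gam_0 {n : ℕ} (x : E (n + 2)) : (gam n x) 0 = -x 0 := by
  show (if (0 : Fin (n + 2)) = 0 then -x 0 else if (0 : Fin (n + 2)) = 1 then x 1 + Real.pi / 2
    else x 0) = _
  simp

theorem gam_1 {n : ℕ} (x : E (n + 2)) : (gam n x) 1 = x 1 + Real.pi / 2 := by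
  show (if (1 : Fin (n + 2)) = 0 then -x 0 else if (1 : Fin (n + 2)) = 1 then x 1 + Real.pi / 2
    else x 1) = _
  simp

theorem ss0 {n : ℕ} (i : Fin n) : ¬ (i.succ.succ : Fin (n + 2)) = 0 := Fin.succ_ne_zero _

theorem ss1 {n : ℕ} (i : Fin n) : ¬ (i.succ.succ : Fin (n + 2)) = 1 := by
  intro h
  have := congrArg Fin.val h
  simp at this

theorem gam_ss {n : ℕ} (x : E (n + 2)) (i : Fin n) : (gam n x) i.succ.succ = x i.succ.succ := by
  show (if (i.succ.succ : Fin (n + 2)) = 0 then -x 0 else if (i.succ.succ : Fin (n + 2)) = 1 then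
    x 1 + Real.pi / 2 else x i.succ.succ) = _
  rw [if_neg (ss0 i), if_neg (ss1 i)]

theorem gami_0 {n : ℕ} (x : E (n + 2)) : ((gam n)⁻¹ x) 0 = -x 0 := by
  show (if (0 : Fin (n + 2)) = 0 then -x 0 else if (0 : Fin (n + 2)) = 1 then x 1 - Real.pi / 2
    else x 0) = _
  simp

theorem gami_1 {n : ℕ} (x : E (n + 2)) : ((gam n)⁻¹ x) 1 = x 1 - Real.pi / 2 := by
  show (if (1 : Fin (n + 2)) = 0 then -x 0 else if (1 : Fin (n + 2)) = 1 then x 1 - Real.pi / 2
    else x 1) = _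
  simp

theorem gami_ss {n : ℕ} (x : E (n + 2)) (i : Fin n) : ((gam n)⁻¹ x) i.succ.succ = x i.succ.succ := by
  show (if (i.succ.succ : Fin (n + 2)) = 0 then -x 0 else if (i.succ.succ : Fin (n + 2)) = 1 then
    x 1 - Real.pi / 2 else x i.succ.succ) = _
  rw [if_neg (ss0 i), if_neg (ss1 i)]

theorem gam_pow {n : ℕ} (k : ℤ) : ∀ x : E (n + 2), ((gam n ^ k) x) 0 = (-1) ^ k * x 0 ∧
    ((gam n ^ k) x) 1 = x 1 + k * (Real.pi / 2) ∧
    ∀ i : Fin n, ((gam n ^ k) x) i.succ.succ = x i.succ.succ := by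
  induction k using Int.induction_on with
  | zero =>
    intro x
    refine ⟨?_, ?_, fun i => ?_⟩
    · simp
    · simp
    · simp
  | succ k ih =>
    intro x
    obtain ⟨h0, h1, h2⟩ := ih (gam n x)
    have e : (gam n ^ ((k : ℤ) + 1)) x = (gam n ^ (k : ℤ)) (gam n x) := by
      rw [zpow_add_one]; rfl
    rw [e]
    refine ⟨?_, ?_, fun i => ?_⟩
    · rw [h0, gam_0, zpow_add_one₀ (by norm_num)]; ring
    · rw [h1, gam_1]; push_cast; ring
    · rw [h2, gam_ss]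
  | pred k ih =>
    intro x
    obtain ⟨h0, h1, h2⟩ := ih ((gam n)⁻¹ x)
    have e : (gam n ^ (-(k : ℤ) - 1)) x = (gam n ^ (-(k : ℤ))) ((gam n)⁻¹ x) := by
      rw [zpow_sub_one]; rfl
    rw [e]
    refine ⟨?_, ?_, fun i => ?_⟩
    · rw [h0, gami_0, zpow_sub_one₀ (by norm_num)]; ring
    · rw [h1, gami_1]; push_cast; ring
    · rw [h2, gami_ss]

theorem gam_inj {n : ℕ} {k : ℤ} (h : gam n ^ k = 1) : k = 0 := by
  have h1 := (gam_pow k (0 : E (n + 2))).2.1
  rw [h] at h1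
  have h2 : ((1 : E (n + 2) ≃ₜ E (n + 2)) (0 : E (n + 2))) 1 = 0 := by simp
  rw [h2] at h1
  have h3 : (k : ℝ) * (Real.pi / 2) = 0 := by simpa using h1.symm
  have h4 : (k : ℝ) = 0 := by
    rcases mul_eq_zero.1 h3 with h5 | h5
    · exact h5
    · exact absurd h5 (by positivity)
  exact_mod_cast h4

theorem gam_pow_inj {n : ℕ} {j k : ℤ} (h : gam n ^ j = gam n ^ k) : j = k := by
  have h1 : gam n ^ (j - k) = 1 := by rw [zpow_sub, h, mul_inv_cancel]
  have := gam_inj h1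
  omega

theorem gamT : T_GAM := by
  intro n
  refine ⟨fun k x => ⟨?_, (gam_pow k x).2.2⟩, fun k h => gam_inj h, ?_⟩
  · obtain ⟨h0, h1, -⟩ := gam_pow k x
    unfold pX gk
    rw [h0, h1]
  · intro ψ y
    let e : ℤ ≃ Gam n := Equiv.ofBijective (fun k => ⟨gam n ^ k, Subgroup.zpow_mem_zpowers _ k⟩)
      ⟨fun j k h => gam_pow_inj (congrArg Subtype.val h), fun γ => by
        obtain ⟨k, hk⟩ := Subgroup.mem_zpowers_iff.1 γ.2
        exact ⟨k, Subtype.ext hk⟩⟩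
    rw [← e.tsum_eq]
    rfl

end Pool.Agent.H86.HK
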