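import Pool.Agent.H96.HK.TargetsN

/-!
# MP_e94f6f_an: module LAP, the Laplace-Beltrami operator of the product
-/

open MeasureTheory Set Filter Topology
open scoped ContDiff

namespace Pool.Agent.H86.HK

open Pool.Agent.H96.HK

theorem vol_eq {F : ℝ → ℝ} (hF : Prof F) (n : ℕ) (x : E (n + 2)) : vol (gF F n) x = F (x 0) := by
  unfold vol gF
  rw [Matrix.det_diagonal, Finset.prod_ite_eq' Finset.univ (1 : Fin (n + 2)) (fun _ => F (x 0) ^ 2)]
  simp only [Finset.mem_univ, if_true]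
  exact Real.sqrt_sq (hF.pos _).le

theorem inv_eq {F : ℝ → ℝ} (hF : Prof F) (n : ℕ) (x : E (n + 2)) :
    (gF F n x)⁻¹ = Matrix.diagonal (fun i => if i = 1 then (F (x 0) ^ 2)⁻¹ else 1) := by
  apply Matrix.inv_eq_right_inv
  unfold gF
  rw [Matrix.diagonal_mul_diagonal, ← Matrix.diagonal_one]
  congr 1
  funext i
  by_cases h : i = 1
  · simp only [h, if_true]
    have : F (x 0) ^ 2 ≠ 0 := pow_ne_zero _ (hF.pos _).ne'
    exact mul_inv_cancel₀ this
  · simp [h]

theorem pd_mul {n : ℕ} {a : ℝ → ℝ} {h : E (n + 2) → ℝ} {x : E (n + 2)} (i : Fin (n + 2))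
    (ha : DifferentiableAt ℝ a (x 0)) (hh : DifferentiableAt ℝ h x) :
    pd i (fun y => a (y 0) * h y) x = (if i = 0 then deriv a (x 0) else 0) * h x + a (x 0) * pd i h x := by
  have h1 : HasFDerivAt (fun y : E (n + 2) => y 0)
      (EuclideanSpace.proj (0 : Fin (n + 2)) : E (n + 2) →L[ℝ] ℝ) x :=
    (EuclideanSpace.proj (0 : Fin (n + 2)) : E (n + 2) →L[ℝ] ℝ).hasFDerivAt
  have h2 : HasFDerivAt (fun y : E (n + 2) => a (y 0))
      (deriv a (x 0) • (EuclideanSpace.proj (0 : Fin (n + 2)) : E (n + 2) →L[ℝ] ℝ)) x :=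
    ha.hasDerivAt.comp_hasFDerivAt x h1
  have h3 := h2.mul hh.hasFDerivAt
  unfold pd
  have h4 : fderiv ℝ (fun y => a (y 0) * h y) x = a (x 0) • fderiv ℝ h x +
      h x • (deriv a (x 0) • (EuclideanSpace.proj (0 : Fin (n + 2)) : E (n + 2) →L[ℝ] ℝ)) := h3.fderiv
  rw [h4]
  have h5 : (EuclideanSpace.proj (0 : Fin (n + 2)) : E (n + 2) →L[ℝ] ℝ)
      (EuclideanSpace.single i (1 : ℝ)) = if (0 : Fin (n + 2)) = i then 1 else 0 := by
    simp [PiLp.single_apply]
  simp only [add_apply, smul_apply, smul_eq_mul, h5]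
  by_cases hi : i = 0
  · simp [hi]; ring
  · have hi' : ¬ (0 : Fin (n + 2)) = i := fun h => hi h.symm
    simp [hi, hi']

theorem lap : T_LAP := by
  intro F hF n
  refine ⟨fun x => vol_eq hF n x, ?_⟩
  intro f x hf
  have hF0 : F (x 0) ≠ 0 := (hF.pos _).ne'
  have hFd : DifferentiableAt ℝ F (x 0) := (hF.smooth.differentiable (by simp)).differentiableAt
  have hFi : DifferentiableAt ℝ (fun s => (F s)⁻¹) (x 0) := hFd.inv hF0
  have hpd : ∀ i : Fin (n + 2), DifferentiableAt ℝ (pd i f) x := by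
    intro i
    have h1 : ContDiffAt ℝ 1 (fderiv ℝ f) x := hf.fderiv_right (by norm_num)
    have h2 : ContDiffAt ℝ 1 (fun y => fderiv ℝ f y (EuclideanSpace.single i 1)) x :=
      h1.clm_apply contDiffAt_const
    exact h2.differentiableAt (by norm_num)
  have hin : ∀ (i : Fin (n + 2)) (y : E (n + 2)), vol (gF F n) y * ∑ j, (gF F n y)⁻¹ i j * pd j f y =
      (if i = 1 then (F (y 0))⁻¹ else F (y 0)) * pd i f y := by
    intro i y
    rw [vol_eq hF, inv_eq hF]
    have hFy : F (y 0) ≠ 0 := (hF.pos _).ne'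
    rw [Finset.sum_eq_single i]
    · rw [Matrix.diagonal_apply_eq]
      by_cases h : i = 1
      · simp only [h, if_true]
        field_simp
      · simp [h]
    · intro j _ hj
      rw [Matrix.diagonal_apply_ne _ (Ne.symm hj), zero_mul]
    · intro h; exact absurd (Finset.mem_univ _) h
  have hterm : ∀ i : Fin (n + 2), pd i (fun y => vol (gF F n) y * ∑ j, (gF F n y)⁻¹ i j * pd j f y) x =
      if i = 1 then (F (x 0))⁻¹ * pd 1 (pd 1 f) x else
        (if i = 0 then deriv F (x 0) else 0) * pd i f x + F (x 0) * pd i (pd i f) x := by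
    intro i
    have h1 : (fun y => vol (gF F n) y * ∑ j, (gF F n y)⁻¹ i j * pd j f y) =
        fun y => (if i = 1 then (F (y 0))⁻¹ else F (y 0)) * pd i f y := funext fun y => hin i y
    rw [h1]
    by_cases h : i = 1
    · subst h
      simp only [if_true]
      have h2 := pd_mul (n := n) (a := fun s => (F s)⁻¹) (h := pd 1 f) (x := x) 1 hFi (hpd 1)
      rw [h2]
      have h3 : ¬ (1 : Fin (n + 2)) = 0 := by simp
      simp [h3]
    · simp only [h, if_false]
      exact pd_mul (n := n) (a := F) (h := pd i f) (x := x) i hFd (hpd i)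
  unfold Pool.Agent.H96.HK.lap
  rw [Finset.sum_congr rfl fun i _ => hterm i, vol_eq hF, Fin.sum_univ_succ, Fin.sum_univ_succ]
  have e0 : ¬ (0 : Fin (n + 2)) = 1 := by simp
  have e1 : (Fin.succ 0 : Fin (n + 2)) = 1 := rfl
  have e2 : ∀ i : Fin n, ¬ (i.succ.succ : Fin (n + 2)) = 1 := by
    intro i h
    have := congrArg Fin.val h
    simp at this
  have e3 : ∀ i : Fin n, ¬ (i.succ.succ : Fin (n + 2)) = 0 := by
    intro i h
    exact Fin.succ_ne_zero _ h
  simp only [e0, e1, e2, e3, if_true, if_false, zero_mul, zero_add]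
  rw [← Finset.mul_sum]
  field_simp
  ring

end Pool.Agent.H86.HK
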