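import Pool.Agent.H96.HK.Basic

/-!
# MP_e94f6f_an: module LOW, two points at angle at least `π`
-/

open MeasureTheory Set Filter Topology
open scoped ContDiff

namespace Pool.Agent.H86.HK

open Pool.Agent.H96.HK

theorem mono_of' {a : ℝ} {f f' : ℝ → ℝ} (hf : ∀ x, HasDerivAt f (f' x) x)
    (h0 : ∀ x, a ≤ x → 0 ≤ f' x) {s : ℝ} (hs : a ≤ s) : f a ≤ f s := by
  have hd : Differentiable ℝ f := fun x => (hf x).differentiableAt
  have hm : MonotoneOn f (Ici a) := by
    apply monotoneOn_of_deriv_nonneg (convex_Ici a) hd.continuous.continuousOn hd.differentiableOn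
    intro x hx
    rw [interior_Ici] at hx
    rw [(hf x).deriv]
    exact h0 x hx.le
  exact hm (mem_Ici.2 le_rfl) (mem_Ici.2 hs) hs

theorem low_path {F : ℝ → ℝ} {K : ℝ} (hF : Prof F) (hK : FB F K) {c : ℝ → X} {p q : X}
    (hc : IsPath c p q) (hpq : Real.pi ≤ q.2 - p.2) :
    |p.1| + |q.1| + F 0 * (q.2 - p.2 - Real.pi) ≤ len F c := by
  have hc1 : ContDiff ℝ 1 fun t => (c t).1 := hc.c1.fst
  have hc2 : ContDiff ℝ 1 fun t => (c t).2 := hc.c1.snd
  set s : ℝ → ℝ := fun t => (c t).1 with hs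
  set φ : ℝ → ℝ := fun t => (c t).2 with hφ
  have hsd : ∀ t, HasDerivAt s (deriv s t) t := fun t => (hc1.differentiable (by simp) t).hasDerivAt
  have hφd : ∀ t, HasDerivAt φ (deriv φ t) t := fun t => (hc2.differentiable (by simp) t).hasDerivAt
  have hspd : ∀ t, spd F c t = √(deriv s t ^ 2 + F (s t) ^ 2 * deriv φ t ^ 2) := fun t => rfl
  have hcont : Continuous (spd F c) := by
    have h1 : Continuous (deriv s) := hc1.continuous_deriv le_rfl
    have h2 : Continuous (deriv φ) := hc2.continuous_deriv le_rfl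
    have h3 : Continuous fun t => F (s t) := hF.continuous.comp hc1.continuous
    have h4 : spd F c = fun t => √(deriv s t ^ 2 + F (s t) ^ 2 * deriv φ t ^ 2) := rfl
    rw [h4]
    exact ((h1.pow 2).add ((h3.pow 2).mul (h2.pow 2))).sqrt
  set G : ℝ → ℝ := fun t => ∫ x in (0 : ℝ)..t, spd F c x with hG
  have hGd : ∀ t, HasDerivAt G (spd F c t) t := fun t =>
    intervalIntegral.integral_hasDerivAt_right (hcont.intervalIntegrable _ _)
      (hcont.stronglyMeasurableAtFilter _ _) hcont.continuousAt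
  have hG0 : G 0 = 0 := by simp [hG]
  have hlen : len F c = G 1 := rfl
  -- the comparison
  have key : ∀ (h h' : ℝ → ℝ), (∀ t, HasDerivAt h (h' t) t) → (∀ t, |h' t| ≤ spd F c t) →
      ∀ t1 t2, t1 ≤ t2 → |h t2 - h t1| ≤ G t2 - G t1 := by
    intro h h' hd hb t1 t2 ht
    have h1 := mono_of' (a := t1) (f := fun t => G t - h t) (f' := fun t => spd F c t - h' t)
      (fun x => (hGd x).sub (hd x)) (fun x _ => by
        have := hb x; have := le_abs_self (h' x); linarith) ht
    have h2 := mono_of' (a := t1) (f := fun t => G t + h t) (f' := fun t => spd F c t + h' t)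
      (fun x => (hGd x).add (hd x)) (fun x _ => by
        have := hb x; have := neg_abs_le (h' x); linarith) ht
    rw [abs_le]
    constructor <;> linarith
  -- bounds of the speed
  have hb1 : ∀ t (a : ℝ), |deriv s t * Real.cos (φ t - a) - s t * (Real.sin (φ t - a) * deriv φ t)|
      ≤ spd F c t := by
    intro t a
    rw [hspd]
    apply Real.abs_le_sqrt
    have h1 : s t ^ 2 ≤ F (s t) ^ 2 := by
      have := hK.le (s t)
      rw [← sq_abs (s t)]
      exact pow_le_pow_left₀ (abs_nonneg _) this 2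
    have h2 : (deriv s t * Real.cos (φ t - a) - s t * (Real.sin (φ t - a) * deriv φ t)) ^ 2 ≤
        deriv s t ^ 2 + s t ^ 2 * deriv φ t ^ 2 := by
      have h3 := Real.sin_sq_add_cos_sq (φ t - a)
      have h4 : deriv s t ^ 2 + s t ^ 2 * deriv φ t ^ 2 -
          (deriv s t * Real.cos (φ t - a) - s t * (Real.sin (φ t - a) * deriv φ t)) ^ 2 =
          (deriv s t * Real.sin (φ t - a) + s t * deriv φ t * Real.cos (φ t - a)) ^ 2 := by
        linear_combination (deriv s t ^ 2 + s t ^ 2 * deriv φ t ^ 2) * (-h3)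
      nlinarith [sq_nonneg (deriv s t * Real.sin (φ t - a) + s t * deriv φ t * Real.cos (φ t - a))]
    have h5 := mul_le_mul_of_nonneg_right h1 (sq_nonneg (deriv φ t))
    linarith
  have hb2 : ∀ t, |F 0 * deriv φ t| ≤ spd F c t := by
    intro t
    rw [hspd]
    apply Real.abs_le_sqrt
    have h1 : F 0 ^ 2 ≤ F (s t) ^ 2 := pow_le_pow_left₀ (hF.pos 0).le (hK.m0 _) 2
    have h2 := mul_le_mul_of_nonneg_right h1 (sq_nonneg (deriv φ t))
    rw [mul_pow]
    nlinarith [sq_nonneg (deriv s t)]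
  have hcosd : ∀ (a t : ℝ), HasDerivAt (fun t => s t * Real.cos (φ t - a))
      (deriv s t * Real.cos (φ t - a) - s t * (Real.sin (φ t - a) * deriv φ t)) t := by
    intro a t
    have h1 := (hsd t).mul (((hφd t).sub_const a).cos)
    have h2 : deriv s t * Real.cos (φ t - a) + s t * (-Real.sin (φ t - a) * deriv φ t) =
        deriv s t * Real.cos (φ t - a) - s t * (Real.sin (φ t - a) * deriv φ t) := by ring
    rw [h2] at h1
    exact h1
  have hs0 : s 0 = p.1 := by simp only [hs, hc.st]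
  have hs1 : s 1 = q.1 := by simp only [hs, hc.en]
  have hφ0 : φ 0 = p.2 := by simp only [hφ, hc.st]
  have hφ1 : φ 1 = q.2 := by simp only [hφ, hc.en]
  have hφc : Continuous φ := hc2.continuous
  have hpi := Real.pi_pos
  obtain ⟨t1, ⟨ht10, ht11⟩, ht1⟩ : ∃ t ∈ Icc (0 : ℝ) 1, φ t = p.2 + Real.pi / 2 := by
    have h1 := intermediate_value_Icc (zero_le_one (α := ℝ)) hφc.continuousOn
    apply h1
    rw [hφ0, hφ1]
    constructor <;> linarith
  obtain ⟨t2, ⟨ht20, ht21⟩, ht2⟩ : ∃ t ∈ Icc t1 1, φ t = q.2 - Real.pi / 2 := by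
    have h1 := intermediate_value_Icc ht11 hφc.continuousOn
    apply h1
    rw [ht1, hφ1]
    constructor <;> linarith
  have k1 := key _ _ (hcosd p.2) (fun t => hb1 t p.2) 0 t1 ht10
  have k2 := key _ _ (hcosd q.2) (fun t => hb1 t q.2) t2 1 ht21
  have k3 := key (fun t => F 0 * φ t) (fun t => F 0 * deriv φ t) (fun t => (hφd t).const_mul _) hb2
    t1 t2 ht20
  have e1 : p.2 + Real.pi / 2 - p.2 = Real.pi / 2 := by ring
  have e2 : q.2 - Real.pi / 2 - q.2 = -(Real.pi / 2) := by ring
  rw [ht1, hφ0, e1, Real.cos_pi_div_two, sub_self, Real.cos_zero, hs0, mul_zero, mul_one,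
    zero_sub, abs_neg, hG0, sub_zero] at k1
  rw [ht2, hφ1, e2, Real.cos_neg, Real.cos_pi_div_two, sub_self, Real.cos_zero, hs1, mul_zero,
    mul_one, sub_zero] at k2
  have k4 := (le_abs_self _).trans k3
  simp only [ht1, ht2] at k4
  rw [hlen]
  nlinarith

theorem dd_nonempty (F : ℝ → ℝ) (p q : X) : {L | ∃ c, IsPath c p q ∧ L = len F c}.Nonempty := by
  refine ⟨_, fun t => p + t • (q - p), ⟨?_, ?_, ?_⟩, rfl⟩
  · exact contDiff_const.add (contDiff_id.smul contDiff_const)
  · simp
  · simp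

theorem len_refl (F : ℝ → ℝ) (c : ℝ → X) : len F (fun t => ((c t).1, -(c t).2)) = len F c := by
  unfold len
  congr 1
  funext t
  unfold spd
  have h1 : deriv (fun τ => ((fun t => ((c t).1, -(c t).2)) τ : X).2) t =
      -deriv (fun τ => (c τ).2) t := by
    show deriv (fun τ => -(c τ).2) t = _
    exact deriv.fun_neg
  rw [h1, neg_sq]

theorem low (hFB : T_FB) : T_LOW := by
  intro F hF p q hpq
  obtain ⟨K, hK⟩ := hFB F hF
  unfold dd
  apply le_csInf (dd_nonempty F p q)
  rintro L ⟨c, hc, rfl⟩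
  rcases le_total p.2 q.2 with h | h
  · rw [abs_sub_comm, abs_of_nonneg (sub_nonneg.2 h)] at hpq ⊢
    exact low_path hF hK hc hpq
  · rw [abs_of_nonneg (sub_nonneg.2 h)] at hpq ⊢
    have h1 : IsPath (fun t => ((c t).1, -(c t).2)) (p.1, -p.2) (q.1, -q.2) := by
      refine ⟨hc.c1.fst.prodMk hc.c1.snd.neg, ?_, ?_⟩
      · simp only [hc.st]
      · simp only [hc.en]
    have h2 := low_path hF hK h1 (by simp only; linarith)
    rw [len_refl] at h2
    simp only at h2
    have h3 : -q.2 - -p.2 - Real.pi = p.2 - q.2 - Real.pi := by ring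
    rw [h3] at h2
    exact h2

end Pool.Agent.H86.HK
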