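import Pool.Agent.H86.HK.GAM

/-!
# MP_e94f6f_an: module MET, the metric and the deck group
-/

open MeasureTheory Set Filter Topology
open scoped ContDiff

namespace Pool.Agent.H86.HK

open Pool.Agent.H96.HK

theorem coord_smooth {n : ℕ} (i : Fin (n + 2)) : ContDiff ℝ ∞ fun x : E (n + 2) => x i :=
  (EuclideanSpace.proj i : E (n + 2) →L[ℝ] ℝ).contDiff

theorem coord_fderiv {n : ℕ} (i : Fin (n + 2)) (c d : ℝ) (x v : E (n + 2)) :
    fderiv ℝ (fun y : E (n + 2) => c * y i + d) x v = c * v i := by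
  have h1 : HasFDerivAt (fun y : E (n + 2) => y i)
      (EuclideanSpace.proj i : E (n + 2) →L[ℝ] ℝ) x :=
    (EuclideanSpace.proj i : E (n + 2) →L[ℝ] ℝ).hasFDerivAt
  have h2 := (h1.const_mul c).add_const d
  rw [h2.fderiv]
  simp

theorem pow_coord {n : ℕ} (k : ℤ) (x : E (n + 2)) (i : Fin (n + 2)) : ((gam n ^ k) x) i =
    (if i = 0 then (-1 : ℝ) ^ k else 1) * x i + (if i = 1 then k * (Real.pi / 2) else 0) := by
  obtain ⟨h0, h1, h2⟩ := gam_pow k x
  refine Fin.cases ?_ (fun j => ?_) i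
  · rw [h0]
    have : ¬ (0 : Fin (n + 2)) = 1 := by simp
    simp [this]
  · refine Fin.cases ?_ (fun l => ?_) j
    · have e : (Fin.succ 0 : Fin (n + 2)) = 1 := rfl
      rw [e, h1]
      have : ¬ (1 : Fin (n + 2)) = 0 := by simp
      simp [this]
    · rw [h2, if_neg (ss0 l), if_neg (ss1 l)]
      ring

theorem pow_smooth {n : ℕ} (k : ℤ) : ContDiff ℝ ∞ ⇑(gam n ^ k) := by
  rw [contDiff_euclidean]
  intro i
  have h1 : (fun x : E (n + 2) => ((gam n ^ k) x) i) = fun x =>
    (if i = 0 then (-1 : ℝ) ^ k else 1) * x i + (if i = 1 then k * (Real.pi / 2) else 0) :=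
    funext fun x => pow_coord k x i
  rw [h1]
  exact (contDiff_const.mul (coord_smooth i)).add contDiff_const

theorem pow_fderiv {n : ℕ} (k : ℤ) (x v : E (n + 2)) (i : Fin (n + 2)) :
    (fderiv ℝ ⇑(gam n ^ k) x v) i = (if i = 0 then (-1 : ℝ) ^ k else 1) * v i := by
  have hd : HasFDerivAt ⇑(gam n ^ k)
      (fderiv ℝ ⇑(gam n ^ k) x) x :=
    ((pow_smooth k).differentiable (by simp) x).hasFDerivAt
  have h1 := (EuclideanSpace.proj i : E (n + 2) →L[ℝ] ℝ).hasFDerivAt.comp x hd
  have h2 : ((EuclideanSpace.proj i : E (n + 2) →L[ℝ] ℝ) ∘ ⇑(gam n ^ k)) =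
    fun x => (if i = 0 then (-1 : ℝ) ^ k else 1) * x i + (if i = 1 then k * (Real.pi / 2) else 0) :=
    funext fun x => pow_coord k x i
  rw [h2] at h1
  rw [← coord_fderiv i _ (if i = 1 then k * (Real.pi / 2) else 0) x v, h1.fderiv]
  rfl

theorem sq_eq (F : ℝ → ℝ) (n : ℕ) (x v : E (n + 2)) : Pool.Agent.H96.HK.sq (gF F n) x v =
    ∑ i, (if i = 1 then F (x 0) ^ 2 else 1) * v i ^ 2 := by
  unfold Pool.Agent.H96.HK.sq
  apply Finset.sum_congr rfl
  intro i _
  rw [Finset.sum_eq_single i]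
  · unfold gF
    rw [Matrix.diagonal_apply_eq]; ring
  · intro j _ hj
    unfold gF
    rw [Matrix.diagonal_apply_ne _ (Ne.symm hj)]; ring
  · intro h; exact absurd (Finset.mem_univ _) h

theorem metT : T_MET := by
  intro F hF n
  refine ⟨⟨?_, ?_⟩, ⟨?_, ?_, ?_, ?_⟩⟩
  · intro i j
    by_cases hij : i = j
    · subst hij
      have h1 : (fun x => gF F n x i i) = fun x => if i = 1 then F (x 0) ^ 2 else 1 := by
        funext x; unfold gF; rw [Matrix.diagonal_apply_eq]
      rw [h1]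
      by_cases hi : i = 1
      · simp only [hi, if_true]
        exact (hF.smooth.comp (coord_smooth 0)).pow 2
      · simp only [hi, if_false]
        exact contDiff_const
    · have h1 : (fun x => gF F n x i j) = fun _ => 0 := by
        funext x; unfold gF; rw [Matrix.diagonal_apply_ne _ hij]
      rw [h1]; exact contDiff_const
  · intro x
    unfold gF
    apply Matrix.PosDef.diagonal
    intro i
    by_cases hi : i = 1
    · simp only [hi, if_true]
      exact pow_pos (hF.pos _) 2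
    · simp only [hi, if_false]; exact one_pos
  · intro γ hγ
    obtain ⟨k, rfl⟩ := Subgroup.mem_zpowers_iff.1 hγ
    exact pow_smooth k
  · intro γ hγ x v
    obtain ⟨k, rfl⟩ := Subgroup.mem_zpowers_iff.1 hγ
    rw [sq_eq, sq_eq]
    apply Finset.sum_congr rfl
    intro i _
    rw [pow_fderiv, (gam_pow k x).1]
    have hFe : F ((-1) ^ k * x 0) = F (x 0) := by
      have h2 := neg_one_zpow_sq k
      have h3 : ((-1 : ℝ) ^ k - 1) * ((-1 : ℝ) ^ k + 1) = 0 := by linear_combination h2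
      rcases mul_eq_zero.mp h3 with h4 | h4
      · rw [sub_eq_zero.mp h4, one_mul]
      · rw [eq_neg_of_add_eq_zero_left h4, neg_one_mul, hF.even]
    rw [hFe, mul_pow]
    by_cases hi : i = 0
    · simp only [hi, if_true]
      rw [neg_one_zpow_sq]; ring
    · simp only [hi, if_false]; ring
  · intro γ hγ x hx
    obtain ⟨k, rfl⟩ := Subgroup.mem_zpowers_iff.1 hγ
    have h1 := (gam_pow k x).2.1
    rw [hx] at h1
    have h3 : (k : ℝ) * (Real.pi / 2) = 0 := by linarith
    have h4 : (k : ℝ) = 0 := by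
      rcases mul_eq_zero.1 h3 with h5 | h5
      · exact h5
      · exact absurd h5 (by positivity)
    have h5 : k = 0 := by exact_mod_cast h4
    rw [h5, zpow_zero]
  · intro K hK
    obtain ⟨A, hA⟩ := hK.exists_bound_of_continuousOn
      (f := fun x : E (n + 2) => x 1) (coord_smooth 1).continuous.continuousOn
    apply Set.Finite.subset (Set.Finite.image (fun k : ℤ => gam n ^ k) (Set.finite_Icc (-⌈2 * A⌉) ⌈2 * A⌉))
    rintro γ ⟨hγ, y, ⟨x, hx, hxy⟩, hy⟩
    obtain ⟨k, rfl⟩ := Subgroup.mem_zpowers_iff.1 hγ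
    refine ⟨k, ?_, rfl⟩
    have h1 := (gam_pow k x).2.1
    have h2 : ((gam n ^ k) x) = y := hxy
    rw [h2] at h1
    have h3 := hA x hx
    have h4 := hA y hy
    rw [Real.norm_eq_abs] at h3 h4
    have hpi := Real.pi_gt_three
    have h5 : |(k : ℝ)| ≤ 2 * A := by
      have h6 : |(k : ℝ)| * (Real.pi / 2) ≤ 2 * A := by
        have h8 : |(k : ℝ)| * (Real.pi / 2) = |(k : ℝ) * (Real.pi / 2)| := by
          rw [abs_mul, abs_of_pos (show (0 : ℝ) < Real.pi / 2 by positivity)]
        rw [h8]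
        have h7 : (k : ℝ) * (Real.pi / 2) = y 1 - x 1 := by linarith
        rw [h7]
        have := abs_sub (y 1) (x 1)
        linarith
      nlinarith [abs_nonneg (k : ℝ)]
    have h6 := (abs_le.1 h5)
    have h7 : (2 * A : ℝ) ≤ ⌈2 * A⌉ := Int.le_ceil _
    constructor
    · have : (-(⌈2 * A⌉ : ℝ)) ≤ k := by linarith [h6.1]
      exact_mod_cast this
    · have : (k : ℝ) ≤ ⌈2 * A⌉ := by linarith [h6.2]
      exact_mod_cast this

end Pool.Agent.H86.HK
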