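import Pool.Agent.H96.HK.Basic

/-!
# MP_e94f6f_an: module PSI, the barrier function
-/

open MeasureTheory Set Filter Topology
open scoped ContDiff

namespace Pool.Agent.H86.HK

open Pool.Agent.H96.HK

theorem mono_of {a : ℝ} {f f' : ℝ → ℝ} (hf : ∀ x, HasDerivAt f (f' x) x)
    (h0 : ∀ x, a ≤ x → 0 ≤ f' x) {s : ℝ} (hs : a ≤ s) : f a ≤ f s := by
  have hd : Differentiable ℝ f := fun x => (hf x).differentiableAt
  have hm : MonotoneOn f (Ici a) := by
    apply monotoneOn_of_deriv_nonneg (convex_Ici a) hd.continuous.continuousOn hd.differentiableOn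
    intro x hx
    rw [interior_Ici] at hx
    rw [(hf x).deriv]
    exact h0 x hx.le
  exact hm (mem_Ici.2 le_rfl) (mem_Ici.2 hs) hs

theorem psi (hFB : T_FB) : T_PSI := by
  intro F hF
  obtain ⟨K, hK⟩ := hFB F hF
  have hFc : Continuous F := hF.continuous
  have hF0 : ∀ s, F s ≠ 0 := fun s => (hF.pos s).ne'
  have hFd : ∀ s, HasDerivAt F (deriv F s) s := fun s =>
    ((hF.smooth.differentiable (by simp)).differentiableAt).hasDerivAt
  set q : ℝ → ℝ := fun s => ∫ x in (0 : ℝ)..s, F x with hq
  have hqd : ∀ s, HasDerivAt q (F s) s := fun s =>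
    intervalIntegral.integral_hasDerivAt_right (hFc.intervalIntegrable _ _)
      (hFc.stronglyMeasurableAtFilter _ _) hFc.continuousAt
  have hq0 : q 0 = 0 := by simp [hq]
  have hqodd : ∀ s, q (-s) = -q s := by
    intro s
    simp only [hq]
    have h1 := intervalIntegral.integral_comp_neg (a := 0) (b := s) F
    simp only [neg_zero] at h1
    have h2 : ∫ x in (0 : ℝ)..s, F (-x) = ∫ x in (0 : ℝ)..s, F x := by
      congr 1; funext x; exact hF.even x
    rw [h2] at h1
    rw [h1, intervalIntegral.integral_symm]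
  have hqC : ContDiff ℝ 1 q := by
    rw [contDiff_one_iff_deriv]
    refine ⟨fun s => (hqd s).differentiableAt, ?_⟩
    have : deriv q = F := funext fun s => (hqd s).deriv
    rw [this]; exact hFc
  set r : ℝ → ℝ := fun s => 4 * q s / F s with hr
  have hrC : ContDiff ℝ 1 r := (contDiff_const.mul hqC).div (hF.smooth.of_le (by simp)) hF0
  have hrc : Continuous r := hrC.continuous
  have hrd : ∀ s, HasDerivAt r (4 - deriv F s / F s * r s) s := by
    intro s
    have h1 := ((hqd s).const_mul 4).div (hFd s) (hF0 s)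
    have h2 : (4 * F s * F s - 4 * q s * deriv F s) / F s ^ 2 = 4 - deriv F s / F s * r s := by
      simp only [hr]
      have := hF0 s
      field_simp
    rw [h2] at h1
    exact h1
  have hr0 : r 0 = 0 := by simp [hr, hq0]
  have hrodd : ∀ s, r (-s) = -r s := by
    intro s; simp only [hr, hqodd, hF.even]; ring
  set ψ : ℝ → ℝ := fun s => 4 + ∫ x in (0 : ℝ)..s, r x with hψ
  have hψd : ∀ s, HasDerivAt ψ (r s) s := fun s =>
    (intervalIntegral.integral_hasDerivAt_right (hrc.intervalIntegrable _ _)
      (hrc.stronglyMeasurableAtFilter _ _) hrc.continuousAt).const_add 4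
  have hdψ : deriv ψ = r := funext fun s => (hψd s).deriv
  have hψ0 : ψ 0 = 4 := by simp [hψ]
  have hψeven : ∀ s, ψ (-s) = ψ s := by
    intro s
    simp only [hψ]
    congr 1
    have h1 := intervalIntegral.integral_comp_neg (a := 0) (b := s) r
    simp only [neg_zero] at h1
    have h2 : ∫ x in (0 : ℝ)..s, r (-x) = -∫ x in (0 : ℝ)..s, r x := by
      rw [← intervalIntegral.integral_neg]
      congr 1; funext x; exact hrodd x
    rw [h2] at h1
    rw [intervalIntegral.integral_symm, ← h1, neg_neg]
  have hψC : ContDiff ℝ 2 ψ := by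
    have h2 : (2 : WithTop ℕ∞) = 1 + 1 := by norm_num
    rw [h2, contDiff_succ_iff_deriv]
    refine ⟨fun s => (hψd s).differentiableAt, by simp, ?_⟩
    rw [hdψ]; exact hrC
  -- bounds of `r`
  have hup : ∀ s, 0 ≤ s → r s ≤ 4 * s := by
    intro s hs
    have h1 := mono_of (a := 0) (f := fun s => s * F s - q s) (f' := fun s => s * deriv F s)
      (fun x => by
        have h2 := ((hasDerivAt_id x).mul (hFd x)).sub (hqd x)
        have h3 : 1 * F x + id x * deriv F x - F x = x * deriv F x := by simp
        rw [h3] at h2; exact h2) (fun x _ => hK.d0 x) hs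
    simp only [zero_mul, hq0, sub_zero] at h1
    simp only [hr]
    rw [div_le_iff₀ (hF.pos s)]
    nlinarith
  have hlo : ∀ s, 0 ≤ s → 2 * s ≤ r s := by
    intro s hs
    have h1 := mono_of (a := 0) (f := fun s => 2 * q s - s * F s) (f' := fun s => F s - s * deriv F s)
      (fun x => by
        have h2 := ((hqd x).const_mul 2).sub ((hasDerivAt_id x).mul (hFd x))
        have h3 : 2 * F x - (1 * F x + id x * deriv F x) = F x - x * deriv F x := by simp; ring
        rw [h3] at h2; exact h2) (fun x _ => sub_nonneg.2 (hK.dl x)) hs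
    simp only [zero_mul, hq0, mul_zero, sub_zero] at h1
    simp only [hr]
    rw [le_div_iff₀ (hF.pos s)]
    nlinarith
  have hr2 : ∀ s, 1 ≤ s → 4 - deriv F s / F s * r s ≤ 2 := by
    intro s hs
    rw [hK.far1 s hs, hF.eq_of_one_le hs]
    have h1 := hlo s (by linarith)
    have hs0 : 0 < s := by linarith
    have h2 : 2 ≤ 1 / s * r s := by
      rw [one_div, ← div_eq_inv_mul, le_div_iff₀ hs0]; exact h1
    linarith
  have hr22 : ∀ s, 0 ≤ s → r s ≤ 2 * s + 2 := by
    intro s hs
    rcases le_total s 1 with h | h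
    · have := hup s hs; linarith
    · have h1 := mono_of (a := 1) (f := fun s => 2 * s + 2 - r s)
        (f' := fun s => 2 - (4 - deriv F s / F s * r s))
        (fun x => by
          have h2 := (((hasDerivAt_id x).const_mul 2).add_const 2).sub (hrd x)
          rw [mul_one] at h2
          exact h2) (fun x hx => sub_nonneg.2 (hr2 x hx)) h
      have h3 := hup 1 zero_le_one
      linarith
  have hψlo : ∀ s, 0 ≤ s → 4 + s ^ 2 ≤ ψ s := by
    intro s hs
    have h1 := mono_of (a := 0) (f := fun s => ψ s - s ^ 2) (f' := fun s => r s - 2 * s)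
      (fun x => by
        have h2 := (hψd x).sub (hasDerivAt_pow 2 x)
        have h3 : r x - ((2 : ℕ) : ℝ) * x ^ (2 - 1) = r x - 2 * x := by norm_num
        rw [h3] at h2; exact h2) (fun x hx => sub_nonneg.2 (hlo x hx)) hs
    simp only [hψ0] at h1
    linarith
  have hψup : ∀ s, 0 ≤ s → ψ s ≤ 3 / 2 * s ^ 2 + 6 := by
    intro s hs
    have h1 := mono_of (a := 0) (f := fun s => s ^ 2 + 2 * s - ψ s) (f' := fun s => 2 * s + 2 - r s)
      (fun x => by
        have h2 := ((hasDerivAt_pow 2 x).add ((hasDerivAt_id x).const_mul 2)).sub (hψd x)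
        have h3 : ((2 : ℕ) : ℝ) * x ^ (2 - 1) + 2 * 1 - r x = 2 * x + 2 - r x := by norm_num
        rw [h3] at h2; exact h2) (fun x hx => sub_nonneg.2 (hr22 x hx)) hs
    simp only [hψ0] at h1
    nlinarith [sq_nonneg (s - 2)]
  have hgr : ∀ s, 0 ≤ s → r s ^ 2 ≤ 4 * ψ s := by
    have h01 : ∀ s, 0 ≤ s → s ≤ 1 → r s ^ 2 ≤ 4 * ψ s := by
      intro s hs h1
      have h2 := hup s hs
      have h3 := hlo s hs
      have h4 := hψlo s hs
      nlinarith
    intro s hs
    rcases le_total s 1 with h | h
    · exact h01 s hs h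
    · have h1 := mono_of (a := 1) (f := fun s => 4 * ψ s - r s ^ 2)
        (f' := fun s => 2 * r s * (2 - (4 - deriv F s / F s * r s)))
        (fun x => by
          have h2 := ((hψd x).const_mul 4).sub ((hrd x).pow 2)
          have h3 : 4 * r x - ((2 : ℕ) : ℝ) * r x ^ (2 - 1) * (4 - deriv F x / F x * r x) =
            2 * r x * (2 - (4 - deriv F x / F x * r x)) := by push_cast; ring
          rw [h3] at h2; exact h2) (fun x hx => by
          have h5 := hlo x (by linarith)
          have h6 := hr2 x hx
          have h7 : 0 ≤ r x := by linarith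
          exact mul_nonneg (by linarith) (by linarith)) h
      have h4 := h01 1 zero_le_one le_rfl
      linarith
  refine ⟨ψ, 6, hψC, hψeven, ?_, ?_, ?_, ?_⟩
  · intro s
    rw [hdψ, (hrd s).deriv]; ring
  · intro s
    rw [hdψ]
    rcases le_total 0 s with h | h
    · exact hgr s h
    · have h1 := hgr (-s) (by linarith)
      rw [hrodd, hψeven, neg_sq] at h1
      exact h1
  · intro s
    rcases le_total 0 s with h | h
    · have := hψlo s h; linarith
    · have h1 := hψlo (-s) (by linarith)
      rw [hψeven, neg_sq] at h1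
      linarith
  · intro s
    rcases le_total 0 s with h | h
    · exact hψup s h
    · have h1 := hψup (-s) (by linarith)
      rw [hψeven, neg_sq] at h1
      exact h1

end Pool.Agent.H86.HK
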